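import Mathlib
import Pool.Agent.H7.DiagLat.Defs
import Pool.Agent.H7.DiagLat.Reduce

set_option autoImplicit false

namespace Pool.Agent.Results.MP_bb8c7b_al.DeltaProper

open Pool.Agent.H7.DiagLat

universe u

/-- Negative answer to Q1: there are a set `E` of lattice identities and a lattice identity `e`
such that the variety defined by `E` contains a non-distributive lattice (so that it is nontrivial
and different from `𝒟`), some lattice does not satisfy `e`, but `Δ(L)` satisfies `e` for every
lattice `L` in the variety. -/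
theorem result : ∃ (E : Set (Term × Term)) (e : Term × Term),
    (∃ (L : Type) (_ : Lattice L), InVariety E L ∧ Nontrivial L ∧
      ∃ x y z : L, x ⊓ (y ⊔ z) ≠ (x ⊓ y) ⊔ (x ⊓ z)) ∧
    (∃ (K : Type) (_ : Lattice K), ¬ Satisfies K e) ∧
    ∀ (L : Type u) [Lattice L], InVariety E L → Satisfies (Delta L) e :=
  ⟨idN5, ident,
    ⟨N5, inferInstance, fun _ he => he, ⟨N5.zero, N5.one, by decide⟩,
      N5.c, N5.a, N5.b, by decide⟩,
    ⟨M3, inferInstance, ident_M3⟩,
    fun _ _ h => ident_Delta h⟩

end Pool.Agent.Results.MP_bb8c7b_al.DeltaProper
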